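import Pool.Agent.L7h72.AM.Stm2

/-!
# Project AM, part IMB: the excess of the curve and of the tuple
-/

set_option autoImplicit false
set_option linter.unusedSectionVars false

namespace Pool.Agent.L7h56.AM

open Finset Pool.Agent.W262.RK Pool.Agent.W307.RT Pool.Agent.W571.RT Pool.Agent.L7h19.RH
  Pool.Agent.L7h72.AM2

lemma exc_le {a b A B : Fin 3 → ℕ} {d Δ : ℕ} (h1 : ∀ c, a c ≤ b c) (h2 : ∀ c, a c ≤ A c + d)
    (h3 : ∀ c, B c ≤ b c + Δ) : exc a b ≤ exc A B + d + 2 * Δ := by
  unfold exc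
  have a0 := h1 0
  have a1 := h1 1
  have a2 := h1 2
  have b0 := h2 0
  have b1 := h2 1
  have b2 := h2 2
  have c0 := h3 0
  have c1 := h3 1
  have c2 := h3 2
  omega

lemma sp3_eq (D : ℤ) (F : Fin 3 → ℤ) (c : Fin 3) :
    sp3 D F c = spl (F c) (sgM c.castSucc * (D * F (cpM c.castSucc))) := by
  have h : ∀ c : Fin 3, c = 0 ∨ c = 1 ∨ c = 2 := by decide
  rcases h c with rfl | rfl | rfl
  · have e1 : sgM (Fin.castSucc (0 : Fin 3)) = -1 := rfl
    have e2 : cpM (Fin.castSucc (0 : Fin 3)) = 1 := rfl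
    rw [e1, e2, neg_one_mul]
    rfl
  · have e1 : sgM (Fin.castSucc (1 : Fin 3)) = -1 := rfl
    have e2 : cpM (Fin.castSucc (1 : Fin 3)) = 0 := rfl
    rw [e1, e2, neg_one_mul]
    rfl
  · have e1 : sgM (Fin.castSucc (2 : Fin 3)) = 1 := rfl
    have e2 : cpM (Fin.castSucc (2 : Fin 3)) = 0 := rfl
    rw [e1, e2, one_mul]
    rfl

lemma symb_one {p : ℕ} {x w t : ℤ} (h : jacobiSym ((x * w) * t) p = 1)
    (h2 : ¬ xor (sg0 p x) (sg0 p w) = true) : jacobiSym t p = 1 := by
  rw [jacobiSym.mul_left, jacobiSym.mul_left] at h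
  unfold sg0 at h2
  rcases jacobiSym.trichotomy x p with hx | hx | hx <;>
    rcases jacobiSym.trichotomy w p with hw | hw | hw <;> rw [hx, hw] at h h2 <;> simp at h h2 ⊢ <;>
    exact h

theorem s_IMB : S_IMB := by
  intro J _ _ cls a μ α β z ha0 haz hμ hB hodd X y k u v huv h0 hb hX hy hk D hD0
  classical
  set f := fv α β u v with hf
  set s := S1 z y f with hs
  set E := ES cls a μ α β D s v with hE
  set F := FM (c4 cls) a μ f with hF
  have ha : ∀ p : ℕ, p.Prime → z < p → ∀ k, ¬ (p : ℤ) ∣ a k := by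
    intro p hp hz k hd
    have h1 := Nat.le_of_dvd (Int.natAbs_pos.2 (ha0 k)) (Int.natCast_dvd.1 hd)
    have h2 := haz k
    omega
  have hFne : ∀ k, F k ≠ 0 := fun k =>
    mul_ne_zero (ha0 k) (prod_ne_zero_iff.2 fun l _ => pow_ne_zero _ (h0 l))
  have hmem : s ∈ Tup J z y := S1_mem (fun p hp hzp j l hjl h =>
    fv_not_dvd hB hp hzp huv hjl h.1 h.2)
  have hmd : ∏ j, s j ∣ PP z y := Tup_prod_dvd hmem
  have hsq : Squarefree (∏ j, s j) := (PP_squarefree z y).squarefree_of_dvd hmd
  have hsd : ∀ (j : J) (p : ℕ), p.Prime → p ∣ s j → (p : ℤ) ∣ f j ∧ z < p := by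
    intro j p hp h
    have h1 := (S1_dvd_iff hp).1 h
    exact ⟨h1.2.1, (mem_PS.1 h1.1).1.1⟩
  have hdF : ∀ (j : J) (p : ℕ), (p : ℤ) ∣ f j → (p : ℤ) ∣ F (cls j) := by
    intro j p h
    rw [hF]
    unfold FM
    apply Dvd.dvd.mul_left
    have hj : j ∈ fc (c4 cls) (cls j) := by
      unfold fc
      rw [mem_filter]
      exact ⟨mem_univ _, rfl⟩
    exact (dvd_pow h (hμ j).pos.ne').trans (dvd_prod_of_mem _ hj)
  have hdis : ∀ c : Fin 3, ∀ i ∈ univ.filter (fun j => cls j = c), ∀ j ∈ univ.filter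
      (fun j => cls j = c), i ≠ j → Disjoint (s i).primeFactors (s j).primeFactors := by
    intro c i _ j _ hij
    exact Nat.Coprime.disjoint_primeFactors ((mem_Tup'.1 hmem).2 i j hij)
  have hpf : ∀ c : Fin 3, ∀ p : ℕ, p.Prime → (p : ℤ) ∣ F c → p ∈ (F c).natAbs.primeFactors :=
    fun c p hp h => Nat.mem_primeFactors.2
      ⟨hp, Int.natCast_dvd.1 h, Int.natAbs_ne_zero.2 (hFne c)⟩
  -- first inequality
  have H1 : ∀ c, nus cls s E c ≤ nu cls s c := fun c =>
    sum_le_sum fun j _ => card_le_card (filter_subset _ _)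
  -- second inequality
  have H2 : ∀ c, nus cls s E c ≤ sp3 D F c + D.natAbs.primeFactors.card := by
    intro c
    unfold nus
    rw [← card_biUnion (fun i hi j hj hij => disjoint_of_subset_left (filter_subset _ _)
      (disjoint_of_subset_right (filter_subset _ _) (hdis c i hi j hj hij))), sp3_eq]
    unfold spl
    refine (card_le_card ?_).trans (card_union_le _ _)
    intro p hp
    obtain ⟨j, hj, hpj⟩ := mem_biUnion.1 hp
    have hjc : cls j = c := (mem_filter.1 hj).2
    obtain ⟨hpj1, hpE⟩ := mem_filter.1 hpj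
    have hpp := Nat.prime_of_mem_primeFactors hpj1
    have hps := Nat.dvd_of_mem_primeFactors hpj1
    obtain ⟨hpf', hzp⟩ := hsd j p hpp hps
    rw [mem_union]
    by_cases hpD : (p : ℤ) ∣ D
    · right
      exact Nat.mem_primeFactors.2 ⟨hpp, Int.natCast_dvd.1 hpD, Int.natAbs_ne_zero.2 hD0⟩
    · left
      rw [mem_filter]
      refine ⟨hpf c p hpp (hjc ▸ hdF j p hpf'), ?_⟩
      have h1 := symbH (cls := cls) (μ := μ) hB ha hodd hpp hzp huv hpf' hpD
      have h2 : ¬ xor (sg0 p (kc cls a μ α β D j)) (sg0 p v) = true := by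
        intro h
        apply hpE
        rw [hE]
        unfold ES
        rw [mem_filter]
        exact ⟨Nat.mem_primeFactors.2 ⟨hpp, hps.trans (dvd_prod_of_mem _ (mem_univ j)),
          hsq.ne_zero⟩, j, hps, h⟩
      have h3 := symb_one h1 h2
      have e : c4 cls j = c.castSucc := by
        unfold c4
        rw [hjc]
      rw [e] at h3
      exact h3
  -- third inequality
  have H3 : ∀ c, om (F c) ≤ nu cls s c +
      (∑ j, (S2 z y f j).primeFactors.card + z + 2 * k * Fintype.card J) := by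
    intro c
    have hbad := badM (cls := c4 cls) (μ := μ) (y := y) hB ha hX hy h0 hb hk
    rw [← hf, ← hs, ← hF] at hbad
    have hne : 2 * F 0 * F 1 * F 2 ≠ 0 :=
      mul_ne_zero (mul_ne_zero (mul_ne_zero (by norm_num) (hFne 0)) (hFne 1)) (hFne 2)
    have hdvd : F c ∣ 2 * F 0 * F 1 * F 2 := by
      have h : ∀ c : Fin 3, c = 0 ∨ c = 1 ∨ c = 2 := by decide
      rcases h c with rfl | rfl | rfl
      · exact ((Dvd.intro_left _ rfl).mul_right _).mul_right _
      · exact (Dvd.intro_left _ rfl).mul_right _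
      · exact Dvd.intro_left _ rfl
    have hsub : (F c).natAbs.primeFactors ⊆
        ((univ.filter (fun j => cls j = c)).biUnion fun j => (s j).primeFactors) ∪
        ((2 * F 0 * F 1 * F 2).natAbs.primeFactors.filter (fun q => ¬ q ∣ ∏ j, s j)) := by
      intro q hq
      have hqp := Nat.prime_of_mem_primeFactors hq
      have hqi : Prime (q : ℤ) := Nat.prime_iff_prime_int.1 hqp
      have hqF : (q : ℤ) ∣ F c := Int.natCast_dvd.2 (Nat.dvd_of_mem_primeFactors hq)
      rw [mem_union]
      by_cases hqs : q ∣ ∏ j, s j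
      · left
        obtain ⟨j, -, hj⟩ := (hqp.prime.dvd_finsetProd_iff _).1 hqs
        obtain ⟨hjf, hzq⟩ := hsd j q hqp hj
        have hjc : cls j = c := by
          by_contra hne
          have hjS : j ∉ fc (c4 cls) c := by
            intro h
            unfold fc at h
            rw [mem_filter] at h
            apply hne
            exact Fin.castSucc_injective 3 h.2
          exact ndM (μ := μ) hB ha hqp hzq huv hjf hjS hqF
        rw [mem_biUnion]
        refine ⟨j, mem_filter.2 ⟨mem_univ _, hjc⟩, ?_⟩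
        rw [Nat.mem_primeFactors]
        exact ⟨hqp, hj, fun h => by
          apply hsq.ne_zero
          exact prod_eq_zero (mem_univ j) h⟩
      · right
        rw [mem_filter, Nat.mem_primeFactors]
        exact ⟨⟨hqp, Int.natCast_dvd.1 (hqF.trans hdvd), Int.natAbs_ne_zero.2 hne⟩, hqs⟩
    have h1 := (card_le_card hsub).trans (card_union_le _ _)
    have h2 : ((univ.filter (fun j => cls j = c)).biUnion fun j => (s j).primeFactors).card ≤
        nu cls s c := card_biUnion_le
    have h3 : Fintype.card J * (2 * k) = 2 * k * Fintype.card J := by ring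
    unfold om
    omega
  have hfin := exc_le H1 H2 H3
  unfold ibE ibz
  exact hfin

end Pool.Agent.L7h56.AM
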